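import Pool.Agent.N621.NP.Top

/-!
# The equation `(2^(k+1) - p) (1 + p + ... + p^(m-1)) = 1 + 2^a p^b + 2^c p^d`
-/

namespace Pool.Agent.N621.NP

open Finset

lemma two_pow_ne (k : ℕ) (p : ℤ) (hp : 3 ≤ p) (hpo : Odd p) : (2 : ℤ) ^ (k + 1) ≠ 2 * p := by
  intro h
  have h1 : (2 : ℤ) ^ k * 1 = 2 ^ 0 * p := by
    rw [pow_succ] at h
    simp only [mul_one, pow_zero, one_mul]
    linarith
  obtain ⟨-, h2⟩ := two_pow_odd k 0 1 p odd_one hpo h1
  omega

theorem core (p : ℤ) (hp : 3 ≤ p) (hpo : Odd p) (n k a b c d : ℕ)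
    (ha : a ≤ k) (hc : c ≤ k) (hbd : b ≤ d) (hd : d ≤ n + 3) (hne : ¬ (a = c ∧ b = d))
    (h : (2 ^ (k + 1) - p) * G p (n + 3) = 1 + 2 ^ a * p ^ b + 2 ^ c * p ^ d) :
    n = 0 ∧ (2 : ℤ) ^ (k + 1) = p + 1 ∧ b = 1 ∧ a = 0 ∧ d = 2 ∧ c = 0 := by
  have hx : (1 : ℤ) ≤ 2 ^ a := one_le_pow₀ (by norm_num)
  have hy : (1 : ℤ) ≤ 2 ^ c := one_le_pow₀ (by norm_num)
  have hxQ : 2 * (2 : ℤ) ^ a ≤ 2 ^ (k + 1) := by
    rw [pow_succ (2 : ℤ) k]
    have : (2 : ℤ) ^ a ≤ 2 ^ k := pow_le_pow_right₀ (by norm_num) ha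
    linarith
  have hyQ : 2 * (2 : ℤ) ^ c ≤ 2 ^ (k + 1) := by
    rw [pow_succ (2 : ℤ) k]
    have : (2 : ℤ) ^ c ≤ 2 ^ k := pow_le_pow_right₀ (by norm_num) hc
    linarith
  have hQe : Even ((2 : ℤ) ^ (k + 1)) := ⟨2 ^ k, by rw [pow_succ]; ring⟩
  have hQ2 := two_pow_ne k p hp hpo
  have hinj : ∀ u v : ℕ, (2 : ℤ) ^ u = 2 ^ v → u = v := fun u v huv =>
    Nat.pow_right_injective (le_refl 2) (by exact_mod_cast huv)
  rcases Nat.lt_or_ge d (n + 3) with hd3 | hd3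
  · rcases Nat.lt_or_ge b (n + 2) with hb2 | hb2
    · obtain ⟨h1, h2, h3, h4, h5, h6⟩ := case1 p _ _ _ n b d hp hpo hQe hQ2 hx hxQ hy hyQ
        (by omega) (by omega) hbd (fun hbd' hxy => hne ⟨hinj _ _ hxy, hbd'⟩) h
      exact ⟨h1, h2, h3, hinj a 0 (by simpa using h4), h5, hinj c 0 (by simpa using h6)⟩
    · exfalso
      have hb' : b = n + 2 := by omega
      have hd' : d = n + 2 := by omega
      subst hb'
      subst hd'
      have hac : a ≠ c := fun hac => hne ⟨hac, rfl⟩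
      refine case2 p _ _ _ n hp hx hy ?_ h
      rcases Nat.lt_or_gt_of_ne hac with hlt | hlt
      · have h1 : 2 * (2 : ℤ) ^ a ≤ 2 ^ c := by
          calc 2 * (2 : ℤ) ^ a = 2 ^ (a + 1) := by rw [pow_succ]; ring
            _ ≤ 2 ^ c := pow_le_pow_right₀ (by norm_num) hlt
        linarith
      · have h1 : 2 * (2 : ℤ) ^ c ≤ 2 ^ a := by
          calc 2 * (2 : ℤ) ^ c = 2 ^ (c + 1) := by rw [pow_succ]; ring
            _ ≤ 2 ^ a := pow_le_pow_right₀ (by norm_num) hlt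
        linarith
  · exfalso
    have hd' : d = n + 3 := by omega
    subst hd'
    have hdv : ∀ u v : ℕ, u < v → 2 * (2 : ℤ) ^ u ∣ 2 ^ v := by
      intro u v huv
      have h1 : (2 : ℤ) ^ (u + 1) ∣ 2 ^ v := pow_dvd_pow 2 huv
      rwa [pow_succ, mul_comm] at h1
    rcases Nat.lt_or_ge b (n + 3) with hb3 | hb3
    · -- one divisor is a multiple of `p^m`
      obtain ⟨j', hj'⟩ := Nat.exists_eq_add_of_le hc
      obtain ⟨j, hj⟩ : ∃ j, j = j' + 1 := ⟨_, rfl⟩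
      have hk : k + 1 = c + j := by omega
      have hQ : (2 : ℤ) ^ (k + 1) = 2 ^ c * 2 ^ j := by rw [hk, pow_add]
      obtain ⟨T, hT⟩ : ∃ T : ℤ, T = 2 ^ j := ⟨_, rfl⟩
      have hTe : Even T := by rw [hT, hj]; exact ⟨2 ^ j', by rw [pow_succ]; ring⟩
      rw [hQ, ← hT] at h hxQ
      have hm3 := G_mul p (n + 3)
      have h' : (2 ^ c * (T - p + 1) - p) * G p (n + 3) = 1 + 2 ^ c + 2 ^ a * p ^ b := by
        linear_combination h - 2 ^ c * hm3
      rcases Nat.eq_zero_or_pos c with hc0 | hc0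
      · subst hc0
        rw [pow_zero] at h' hxQ
        refine case40 p T (2 ^ a) n b hp hx (by linarith) (by omega) ?_
        linear_combination h'
      · have hy2 : (2 : ℤ) ≤ 2 ^ c := by
          calc (2 : ℤ) = 2 ^ 1 := by norm_num
            _ ≤ 2 ^ c := pow_le_pow_right₀ (by norm_num) hc0
        have hye : Even ((2 : ℤ) ^ c) := by
          obtain ⟨c', rfl⟩ : ∃ c', c = c' + 1 := ⟨c - 1, by omega⟩
          exact ⟨2 ^ c', by rw [pow_succ]; ring⟩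
        rcases Nat.lt_or_ge b (n + 1) with hb1 | hb1
        · exact case41 p T (2 ^ a) (2 ^ c) n b hp hpo hTe hx hy2 hxQ (by omega) h'
        · rcases Nat.lt_or_ge b (n + 2) with hb2 | hb2
          · have hb' : b = n + 1 := by omega
            subst hb'
            exact case42 p T (2 ^ a) (2 ^ c) n a hp hpo hTe rfl hy2 hye hxQ h'
          · have hb' : b = n + 2 := by omega
            subst hb'
            exact case43 p T (2 ^ a) (2 ^ c) n a c j hp hpo rfl rfl hT hc0 (by omega) (by omega) h'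
    · have hb' : b = n + 3 := by omega
      subst hb'
      have hac : a ≠ c := fun hac => hne ⟨hac, rfl⟩
      rcases Nat.lt_or_gt_of_ne hac with hlt | hlt
      · exact case3 p _ (2 ^ a) (2 ^ c) n hp hpo hx (hdv a c hlt) hy (hdv c (k + 1) (by omega)) h
      · refine case3 p _ (2 ^ c) (2 ^ a) n hp hpo hy (hdv c a hlt) hx (hdv a (k + 1) (by omega)) ?_
        linear_combination h

end Pool.Agent.N621.NP
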