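import Mathlib

/-!
# Arithmetic core of the classification of 2-near perfect numbers `2^k p^m`, `m ≥ 3`
-/

namespace Pool.Agent.N621.NP

open Finset

/-- `1 + p + ... + p^(n-1)`. -/
def G (p : ℤ) (n : ℕ) : ℤ := ∑ i ∈ Finset.range n, p ^ i

lemma G_succ (p : ℤ) (n : ℕ) : G p (n + 1) = G p n + p ^ n := by
  unfold G; rw [Finset.sum_range_succ]

lemma G_succ' (p : ℤ) (n : ℕ) : G p (n + 1) = 1 + p * G p n := by
  unfold G
  rw [Finset.sum_range_succ', Finset.mul_sum]
  simp only [pow_zero]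
  rw [add_comm]
  congr 1
  apply Finset.sum_congr rfl
  intro i _
  ring

lemma G_zero (p : ℤ) : G p 0 = 0 := by simp [G]

lemma G_mul (p : ℤ) (n : ℕ) : (p - 1) * G p n = p ^ n - 1 := by
  induction n with
  | zero => simp [G_zero]
  | succ n ih => rw [G_succ, mul_add, ih]; ring

lemma G_nonneg (p : ℤ) (hp : 0 ≤ p) (n : ℕ) : 0 ≤ G p n :=
  Finset.sum_nonneg fun i _ => pow_nonneg hp i

lemma small_dvd (p z : ℤ) (hp : 0 < p) (h : p ∣ z) (h1 : -p < z) (h2 : z < p) : z = 0 := by
  obtain ⟨q, rfl⟩ := h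
  have h3 : q < 1 := by
    by_contra hc
    have : p * 1 ≤ p * q := mul_le_mul_of_nonneg_left (by omega) hp.le
    omega
  have h4 : -1 < q := by
    by_contra hc
    have : p * q ≤ p * (-1) := mul_le_mul_of_nonneg_left (by omega) hp.le
    omega
  have : q = 0 := by omega
  simp [this]

lemma two_pow_odd (a b : ℕ) (A B : ℤ) (hA : Odd A) (hB : Odd B)
    (h : (2 : ℤ) ^ a * A = 2 ^ b * B) : a = b ∧ A = B := by
  have key : ∀ (a b : ℕ) (A B : ℤ), Odd A → a ≤ b → (2 : ℤ) ^ a * A = 2 ^ b * B →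
      a = b ∧ A = B := by
    intro a b A B hA hab h
    obtain ⟨t, rfl⟩ := Nat.exists_eq_add_of_le hab
    have h2 : (2 : ℤ) ^ a ≠ 0 := by positivity
    have h3 : A = 2 ^ t * B := by
      apply mul_left_cancel₀ h2
      rw [h, pow_add]; ring
    rcases Nat.eq_zero_or_pos t with ht | ht
    · subst ht; simp at h3; exact ⟨by simp, h3⟩
    · exfalso
      obtain ⟨u, rfl⟩ : ∃ u, t = u + 1 := ⟨t - 1, by omega⟩
      have : Even A := by
        rw [h3, pow_succ]
        exact ⟨2 ^ u * B, by ring⟩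
      exact (Int.not_even_iff_odd.mpr hA) this
  rcases le_total a b with hab | hab
  · exact key a b A B hA hab h
  · obtain ⟨h1, h2⟩ := key b a B A hB hab h.symm
    exact ⟨h1.symm, h2.symm⟩

/-- Lower bound for the geometric sum. -/
lemma G_ge (p : ℤ) (hp : 0 ≤ p) (n : ℕ) :
    p ^ n * (p ^ 2 + p + 1) ≤ G p (n + 3) := by
  rw [G_succ, G_succ, G_succ]
  have := G_nonneg p hp n
  have e1 : p ^ (n + 1) = p ^ n * p := pow_succ _ _
  have e2 : p ^ (n + 2) = p ^ n * p ^ 2 := by rw [pow_add]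
  rw [e1, e2]
  nlinarith

lemma one_le_pow' (p : ℤ) (hp : 1 ≤ p) (n : ℕ) : 1 ≤ p ^ n := one_le_pow₀ hp

/-- No divisor is a multiple of `p^m`, and not both are multiples of `p^(m-1)`. -/
theorem case1 (p Q x y : ℤ) (n b d : ℕ) (hp : 3 ≤ p) (hpo : Odd p) (hQ : Even Q)
    (hQ2 : Q ≠ 2 * p) (hx : 1 ≤ x) (hxQ : 2 * x ≤ Q) (hy : 1 ≤ y) (hyQ : 2 * y ≤ Q)
    (hb : b ≤ n + 1) (hd : d ≤ n + 2) (hbd : b ≤ d) (hne : b = d → x ≠ y)
    (h : (Q - p) * G p (n + 3) = 1 + x * p ^ b + y * p ^ d) :
    n = 0 ∧ Q = p + 1 ∧ b = 1 ∧ x = 1 ∧ d = 2 ∧ y = 1 := by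
  obtain ⟨K, hK⟩ : ∃ K, K = Q - p := ⟨_, rfl⟩
  have hQK : Q = K + p := by omega
  subst hQK
  have hKK : K + p - p = K := by ring
  rw [hKK] at h
  have hG := G_ge p (by omega) n
  have hR : 1 ≤ p ^ n := one_le_pow' p (by omega) n
  have hpb : 1 ≤ p ^ b := one_le_pow' p (by omega) b
  have hpd : 1 ≤ p ^ d := one_le_pow' p (by omega) d
  have hpb' : p ^ b ≤ p ^ n * p := by
    rw [← pow_succ]; exact pow_le_pow_right₀ (by omega) hb
  have hpd' : p ^ d ≤ p ^ n * p ^ 2 := by
    rw [← pow_add]; exact pow_le_pow_right₀ (by omega) hd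
  have hGpos : 0 < G p (n + 3) := by nlinarith
  have hKpos : 1 ≤ K := by
    by_contra hc
    have h1 : K * G p (n + 3) ≤ 0 := mul_nonpos_of_nonpos_of_nonneg (by omega) hGpos.le
    have h2 : 0 < x * p ^ b := by positivity
    have h3 : 0 < y * p ^ d := by positivity
    omega
  obtain ⟨q, hq⟩ := hpo
  obtain ⟨u, hu⟩ := hQ
  have hKp : K ≤ p := by
    by_contra hc
    have hx1 : x ≤ K - 1 := by omega
    have hy1 : y ≤ K - 1 := by omega
    have h1 : x * p ^ b ≤ (K - 1) * (p ^ n * p) :=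
      mul_le_mul hx1 hpb' (by omega) (by omega)
    have h2 : y * p ^ d ≤ (K - 1) * (p ^ n * p ^ 2) :=
      mul_le_mul hy1 hpd' (by omega) (by omega)
    have h3 : K * (p ^ n * (p ^ 2 + p + 1)) ≤ K * G p (n + 3) :=
      mul_le_mul_of_nonneg_left hG (by omega)
    have h4 : 0 ≤ (K - 1) * p ^ n := mul_nonneg (by omega) (by omega)
    have h5 : 0 ≤ p ^ n * p := by positivity
    have h6 : 0 < p ^ n * p ^ 2 := by positivity
    nlinarith
  have hKp2 : K ≤ p - 2 := by omega
  have hx1 : x ≤ p - 1 := by omega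
  have hy1 : y ≤ p - 1 := by omega
  have hp0 : 0 < p := by omega
  -- the residues modulo p
  rcases Nat.eq_zero_or_pos b with hb0 | hb0
  · subst hb0
    rcases Nat.eq_zero_or_pos d with hd0 | hd0
    · subst hd0
      exfalso
      simp only [pow_zero, mul_one] at h
      have h1 : 1 * (1 * (p ^ 2 + p + 1)) ≤ K * (p ^ n * (p ^ 2 + p + 1)) := by
        have h7 : 0 < p ^ 2 + p + 1 := by positivity
        apply mul_le_mul hKpos _ (by positivity) (by omega)
        exact mul_le_mul_of_nonneg_right hR h7.le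
      have h3 : K * (p ^ n * (p ^ 2 + p + 1)) ≤ K * G p (n + 3) :=
        mul_le_mul_of_nonneg_left hG (by omega)
      nlinarith
    · exfalso
      obtain ⟨d', rfl⟩ : ∃ d', d = d' + 1 := ⟨d - 1, by omega⟩
      rw [G_succ' p (n + 2)] at h
      have hmod : p ∣ K - (1 + x) := by
        refine ⟨y * p ^ d' - K * G p (n + 2), ?_⟩
        have : p ^ (d' + 1) = p ^ d' * p := pow_succ _ _
        rw [this] at h
        linear_combination h
      have hKx : K - (1 + x) = 0 := by
        rcases eq_or_ne x (p - 1) with hxp | hxp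
        · exfalso
          have h8 : p ∣ K := by
            have : K = (K - (1 + x)) + p := by rw [hxp]; ring
            rw [this]; exact dvd_add hmod dvd_rfl
          have := small_dvd p K hp0 h8 (by omega) (by omega)
          omega
        · exact small_dvd p _ hp0 hmod (by omega) (by omega)
      have hKx' : K = 1 + x := by omega
      have h9 : K * G p (n + 2) = y * p ^ d' := by
        have hp0' : p ≠ 0 := by omega
        apply mul_left_cancel₀ hp0'
        have : p ^ (d' + 1) = p ^ d' * p := pow_succ _ _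
        rw [this] at h
        linear_combination h - hKx'
      rcases Nat.eq_zero_or_pos d' with hd1 | hd1
      · subst hd1
        rw [pow_zero, mul_one] at h9
        have h10 : 1 + p ≤ G p (n + 2) := by
          rw [G_succ' p (n + 1), G_succ' p n]
          have := G_nonneg p (by omega) n
          nlinarith [mul_nonneg hp0.le (mul_nonneg hp0.le this)]
        nlinarith
      · obtain ⟨d'', rfl⟩ : ∃ d'', d' = d'' + 1 := ⟨d' - 1, by omega⟩
        have h11 : p ∣ K := by
          rw [G_succ' p (n + 1)] at h9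
          refine ⟨y * p ^ d'' - K * G p (n + 1), ?_⟩
          have : p ^ (d'' + 1) = p ^ d'' * p := pow_succ _ _
          rw [this] at h9
          linear_combination h9
        have := small_dvd p K hp0 h11 (by omega) (by omega)
        omega
  · obtain ⟨b', rfl⟩ : ∃ b', b = b' + 1 := ⟨b - 1, by omega⟩
    obtain ⟨d', rfl⟩ : ∃ d', d = d' + 1 := ⟨d - 1, by omega⟩
    have eb : p ^ (b' + 1) = p ^ b' * p := pow_succ _ _
    have ed : p ^ (d' + 1) = p ^ d' * p := pow_succ _ _
    rw [G_succ' p (n + 2), eb, ed] at h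
    have hmod : p ∣ K - 1 := by
      refine ⟨x * p ^ b' + y * p ^ d' - K * G p (n + 2), ?_⟩
      linear_combination h
    have hK1 : K - 1 = 0 := small_dvd p _ hp0 hmod (by omega) (by omega)
    have hK1' : K = 1 := by omega
    subst hK1'
    have h9 : G p (n + 2) = x * p ^ b' + y * p ^ d' := by
      have hp0' : p ≠ 0 := by omega
      apply mul_left_cancel₀ hp0'
      linear_combination h
    rcases Nat.eq_zero_or_pos b' with hb1 | hb1
    · subst hb1
      rw [pow_zero, mul_one] at h9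
      rcases Nat.eq_zero_or_pos d' with hd1 | hd1
      · exfalso
        subst hd1
        rw [pow_zero, mul_one] at h9
        have h10 : 1 + p ≤ G p (n + 2) := by
          rw [G_succ' p (n + 1), G_succ' p n]
          have := G_nonneg p (by omega) n
          nlinarith [mul_nonneg hp0.le (mul_nonneg hp0.le this)]
        have := hne rfl
        omega
      · obtain ⟨d'', rfl⟩ : ∃ d'', d' = d'' + 1 := ⟨d' - 1, by omega⟩
        have ed2 : p ^ (d'' + 1) = p ^ d'' * p := pow_succ _ _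
        rw [G_succ' p (n + 1), ed2] at h9
        have hmod2 : p ∣ x - 1 := by
          refine ⟨G p (n + 1) - y * p ^ d'', ?_⟩
          linear_combination -h9
        have hx2 : x - 1 = 0 := small_dvd p _ hp0 hmod2 (by omega) (by omega)
        have h12 : G p (n + 1) = y * p ^ d'' := by
          have hp0' : p ≠ 0 := by omega
          apply mul_left_cancel₀ hp0'
          linear_combination h9 + hx2
        rcases Nat.eq_zero_or_pos d'' with hd2 | hd2
        · subst hd2
          rw [pow_zero, mul_one] at h12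
          have hn0 : n = 0 := by
            by_contra hn
            obtain ⟨n', rfl⟩ : ∃ n', n = n' + 1 := ⟨n - 1, by omega⟩
            rw [G_succ' p (n' + 1), G_succ' p n'] at h12
            have := G_nonneg p (by omega) n'
            nlinarith [mul_nonneg hp0.le (mul_nonneg hp0.le this)]
          subst hn0
          rw [G_succ' p 0, G_zero] at h12
          exact ⟨rfl, by ring, rfl, by omega, rfl, by omega⟩
        · exfalso
          obtain ⟨d3, rfl⟩ : ∃ d3, d'' = d3 + 1 := ⟨d'' - 1, by omega⟩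
          have ed3 : p ^ (d3 + 1) = p ^ d3 * p := pow_succ _ _
          rw [G_succ' p n, ed3] at h12
          have h13 : p ∣ 1 := ⟨y * p ^ d3 - G p n, by linear_combination h12⟩
          have := small_dvd p 1 hp0 h13 (by omega) (by omega)
          omega
    · exfalso
      obtain ⟨b2, rfl⟩ : ∃ b2, b' = b2 + 1 := ⟨b' - 1, by omega⟩
      obtain ⟨d2, rfl⟩ : ∃ d2, d' = d2 + 1 := ⟨d' - 1, by omega⟩
      have eb2 : p ^ (b2 + 1) = p ^ b2 * p := pow_succ _ _
      have ed2 : p ^ (d2 + 1) = p ^ d2 * p := pow_succ _ _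
      rw [G_succ' p (n + 1), eb2, ed2] at h9
      have h13 : p ∣ 1 := ⟨x * p ^ b2 + y * p ^ d2 - G p (n + 1), by linear_combination h9⟩
      have := small_dvd p 1 hp0 h13 (by omega) (by omega)
      omega

/-- Both divisors are multiples of exactly `p^(m-1)`. -/
theorem case2 (p Q x y : ℤ) (n : ℕ) (hp : 3 ≤ p)
    (hx : 1 ≤ x) (hy : 1 ≤ y) (hxQ : 4 * (x + y) ≤ 3 * Q)
    (h : (Q - p) * G p (n + 3) = 1 + x * p ^ (n + 2) + y * p ^ (n + 2)) : False := by
  have hP : p ^ 2 ≤ p ^ (n + 2) := pow_le_pow_right₀ (by omega) (by omega)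
  have hP0 : (0 : ℤ) < p ^ (n + 2) := by positivity
  have hG3 : G p (n + 3) = G p (n + 2) + p ^ (n + 2) := G_succ p (n + 2)
  have hm2 := G_mul p (n + 2)
  have hm3 := G_mul p (n + 3)
  have e3 : p ^ (n + 3) = p ^ (n + 2) * p := pow_succ _ _
  have hG2 : 1 + p ≤ G p (n + 2) := by
    rw [G_succ' p (n + 1), G_succ' p n]
    have := G_nonneg p (by omega) n
    have hp0 : 0 < p := by omega
    nlinarith [mul_nonneg hp0.le (mul_nonneg hp0.le this)]
  have hG3' : 0 < G p (n + 3) := by rw [hG3]; omega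
  have hKpos : 1 ≤ Q - p := by
    by_contra hc
    have h1 : (Q - p) * G p (n + 3) ≤ 0 := mul_nonpos_of_nonpos_of_nonneg (by omega) hG3'.le
    have h2 : 0 < x * p ^ (n + 2) := by positivity
    have h3 : 0 < y * p ^ (n + 2) := by positivity
    omega
  generalize hPd : p ^ (n + 2) = P at *
  generalize hGd : G p (n + 2) = g at *
  -- K = 1 - p + s P
  have hs : P ∣ (Q - p) + (p - 1) := by
    refine ⟨(Q - p) + (Q - p) * (p - 1) - (p - 1) * (x + y), ?_⟩
    rw [hG3] at h
    linear_combination (Q - p) * hm2 - (p - 1) * h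
  obtain ⟨s, hs⟩ := hs
  have hs1 : 1 ≤ s := by
    by_contra hc
    have : P * s ≤ 0 := mul_nonpos_of_nonneg_of_nonpos hP0.le (by omega)
    omega
  have hQs : Q = 1 + P * s := by linarith
  have hxy : s * (g + P) - p = x + y := by
    have hP0' : P ≠ 0 := by omega
    apply mul_left_cancel₀ hP0'
    rw [hG3, hQs] at h
    rw [e3, hG3] at hm3
    linear_combination h + hm3
  nlinarith

/-- Both divisors are multiples of `p^m`. -/
theorem case3 (p Q x y : ℤ) (n : ℕ) (hp : 3 ≤ p) (hpo : Odd p)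
    (hx : 1 ≤ x) (hxy : 2 * x ∣ y) (hy : 1 ≤ y) (hyQ : 2 * y ∣ Q)
    (h : (Q - p) * G p (n + 3) = 1 + x * p ^ (n + 3) + y * p ^ (n + 3)) : False := by
  have hG := G_ge p (by omega) n
  have hR : 1 ≤ p ^ n := one_le_pow' p (by omega) n
  have hm3 := G_mul p (n + 3)
  have hGpos : p ^ 2 + p + 1 ≤ G p (n + 3) := by
    have h7 : 0 < p ^ 2 + p + 1 := by positivity
    nlinarith
  generalize hGd : G p (n + 3) = g at *
  have e3 : p ^ (n + 3) = (p - 1) * g + 1 := by linarith
  rw [e3] at h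
  obtain ⟨s, hs⟩ : ∃ s, s = (Q - p) - (x + y) * (p - 1) := ⟨_, rfl⟩
  have hsg : s * g = 1 + x + y := by rw [hs]; linear_combination h
  have hg0 : 0 < g := by nlinarith
  have hs1 : 1 ≤ s := by
    by_contra hc
    have : s * g ≤ 0 := mul_nonpos_of_nonpos_of_nonneg (by omega) hg0.le
    omega
  obtain ⟨q, hq⟩ := hpo
  have h2x : 2 * x ∣ p + s := by
    have h1 : 2 * x ∣ Q := by
      obtain ⟨v, hv⟩ := hxy
      obtain ⟨w, hw⟩ := hyQ
      exact ⟨v * 2 * w, by rw [hw, hv]; ring⟩
    have h2 : p + s = Q - x * (p - 1) - y * (p - 1) := by rw [hs]; ring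
    rw [h2]
    apply dvd_sub (dvd_sub h1 _) (hxy.mul_right _)
    exact ⟨q, by rw [hq]; ring⟩
  have h2y : 2 * y ∣ p + s + (p - 1) * x := by
    have h2 : p + s + (p - 1) * x = Q - y * (p - 1) := by rw [hs]; ring
    rw [h2]
    apply dvd_sub hyQ
    exact ⟨q, by rw [hq]; ring⟩
  have h3 : 2 * x ≤ p + s := Int.le_of_dvd (by omega) h2x
  have h4 : 2 * y ≤ p + s + (p - 1) * x :=
    Int.le_of_dvd (by nlinarith) h2y
  have h5 : s * (p ^ 2 + p + 1) ≤ s * g := mul_le_mul_of_nonneg_left hGpos (by omega)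
  have h6 : (p - 1) * (2 * x) ≤ (p - 1) * (p + s) := mul_le_mul_of_nonneg_left h3 (by omega)
  have h7 : 1 * (1 + 3 * p + 4 * p ^ 2) ≤ s * (1 + 3 * p + 4 * p ^ 2) :=
    mul_le_mul_of_nonneg_right hs1 (by positivity)
  nlinarith

end Pool.Agent.N621.NP
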