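import Pool.Agent.N621.NP.Core

/-!
# The case where one of the two divisors is a multiple of `p^m`
-/

namespace Pool.Agent.N621.NP

open Finset

/-- One divisor is exactly `p^m`. -/
theorem case40 (p T x : ℤ) (n b : ℕ) (hp : 3 ≤ p)
    (hx : 1 ≤ x) (hxT : 2 * x ≤ T) (hb : b ≤ n + 2)
    (h : (T - 2 * p + 1) * G p (n + 3) = 2 + x * p ^ b) : False := by
  have hG := G_ge p (by omega) n
  have hR : 1 ≤ p ^ n := one_le_pow' p (by omega) n
  have hpb : 1 ≤ p ^ b := one_le_pow' p (by omega) b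
  have hGpos : 0 < G p (n + 3) := by nlinarith
  obtain ⟨E, hE⟩ : ∃ E, E = T - 2 * p + 1 := ⟨_, rfl⟩
  rw [← hE] at h
  have hEpos : 1 ≤ E := by
    by_contra hc
    have h1 : E * G p (n + 3) ≤ 0 := mul_nonpos_of_nonpos_of_nonneg (by omega) hGpos.le
    have h2 : 0 < x * p ^ b := by positivity
    omega
  rcases Nat.lt_or_ge b (n + 2) with hb1 | hb1
  · have hpb' : p ^ b ≤ p ^ n * p := by
      rw [← pow_succ]; exact pow_le_pow_right₀ (by omega) (by omega)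
    have h1 : (2 * x) * p ^ b ≤ (E + 2 * p - 1) * (p ^ n * p) :=
      mul_le_mul (by omega) hpb' (by omega) (by omega)
    have h3 : E * (p ^ n * (p ^ 2 + p + 1)) ≤ E * G p (n + 3) :=
      mul_le_mul_of_nonneg_left hG (by omega)
    have h5 : 8 ≤ 2 * p ^ 2 * (E - 1) + E * p + 2 * E + p := by
      nlinarith [mul_nonneg (by positivity : (0:ℤ) ≤ 2 * p ^ 2) (by omega : 0 ≤ E - 1)]
    have h6 : 1 * 8 ≤ p ^ n * (2 * p ^ 2 * (E - 1) + E * p + 2 * E + p) :=
      mul_le_mul hR h5 (by norm_num) (by omega)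
    nlinarith
  · have hb2 : b = n + 2 := by omega
    subst hb2
    have hP : p ^ 2 ≤ p ^ (n + 2) := pow_le_pow_right₀ (by omega) (by omega)
    have hP0 : (0 : ℤ) < p ^ (n + 2) := by positivity
    have hG3 : G p (n + 3) = G p (n + 2) + p ^ (n + 2) := G_succ p (n + 2)
    have hm2 := G_mul p (n + 2)
    have hm3 := G_mul p (n + 3)
    have e3 : p ^ (n + 3) = p ^ (n + 2) * p := pow_succ _ _
    have hG2 : 1 + p ≤ G p (n + 2) := by
      rw [G_succ' p (n + 1), G_succ' p n]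
      have := G_nonneg p (by omega) n
      have hp0 : 0 < p := by omega
      nlinarith [mul_nonneg hp0.le (mul_nonneg hp0.le this)]
    generalize hPd : p ^ (n + 2) = P at *
    generalize hGd : G p (n + 2) = g at *
    have hs : P ∣ E + 2 * (p - 1) := by
      refine ⟨E + E * (p - 1) - (p - 1) * x, ?_⟩
      rw [hG3] at h
      linear_combination E * hm2 - (p - 1) * h
    obtain ⟨s, hs⟩ := hs
    have hs1 : 1 ≤ s := by
      by_contra hc
      have : P * s ≤ 0 := mul_nonpos_of_nonneg_of_nonpos hP0.le (by omega)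
      omega
    have hxs : s * (g + P) - 2 * p = x := by
      have hP0' : P ≠ 0 := by omega
      apply mul_left_cancel₀ hP0'
      have hEs : E = P * s - 2 * (p - 1) := by linarith
      rw [hG3, hEs] at h
      rw [e3, hG3] at hm3
      linear_combination h + 2 * hm3
    have hTs : T = 1 + P * s := by linarith
    have h7 : 2 * (s * (g + P)) ≤ 4 * p + 1 + P * s := by linarith
    have h8 : p ^ 2 + 2 * (1 + p) ≤ P + 2 * g := by linarith
    have h9 : 1 * (p ^ 2 + 2 * (1 + p)) ≤ s * (P + 2 * g) :=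
      mul_le_mul hs1 h8 (by positivity) (by omega)
    nlinarith

/-- Facts used in all the cases with an even divisor `y * p^m`. -/
lemma prep (p T x y g E : ℤ) (hp : 3 ≤ p) (hpo : Odd p) (hT : Even T)
    (hy : 2 ≤ y) (hxQ : 2 * x ≤ y * T) (hg : g = T - p + 1) (hE : E = y * g - p)
    (hE1 : 1 ≤ E) : 2 ≤ g ∧ 2 * y ≤ E + p ∧ 4 * x ≤ (E + p) * (p + 1) := by
  have hg1 : 1 ≤ g := by
    by_contra hc
    have : y * g ≤ 0 := mul_nonpos_of_nonneg_of_nonpos (by omega) (by omega)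
    omega
  obtain ⟨q, hq⟩ := hpo
  obtain ⟨t, ht⟩ := hT
  have hg2 : 2 ≤ g := by omega
  have h2 : 2 * y ≤ E + p := by nlinarith
  refine ⟨hg2, h2, ?_⟩
  have hT : T = g + p - 1 := by omega
  have h3 : (p - 1) * (2 * y) ≤ (p - 1) * (E + p) := mul_le_mul_of_nonneg_left h2 (by omega)
  have h4 : 2 * (y * T) = 2 * (E + p) + (p - 1) * (2 * y) := by rw [hT, hE]; ring
  nlinarith

theorem case41 (p T x y : ℤ) (n b : ℕ) (hp : 3 ≤ p) (hpo : Odd p) (hT : Even T)
    (hx : 1 ≤ x) (hy : 2 ≤ y) (hxQ : 2 * x ≤ y * T) (hb : b ≤ n)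
    (h : (y * (T - p + 1) - p) * G p (n + 3) = 1 + y + x * p ^ b) : False := by
  have hG := G_ge p (by omega) n
  have hR : 1 ≤ p ^ n := one_le_pow' p (by omega) n
  have hpb : 1 ≤ p ^ b := one_le_pow' p (by omega) b
  have hGpos : 0 < G p (n + 3) := by nlinarith
  obtain ⟨g, hg⟩ : ∃ g, g = T - p + 1 := ⟨_, rfl⟩
  rw [← hg] at h
  obtain ⟨E, hE⟩ : ∃ E, E = y * g - p := ⟨_, rfl⟩
  rw [← hE] at h
  have hEpos : 1 ≤ E := by
    by_contra hc
    have h1 : E * G p (n + 3) ≤ 0 := mul_nonpos_of_nonpos_of_nonneg (by omega) hGpos.le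
    have h2 : 0 < x * p ^ b := by positivity
    omega
  obtain ⟨hg2, h2y, h4x⟩ := prep p T x y g E hp hpo hT hy hxQ hg hE hEpos
  have hpb' : p ^ b ≤ p ^ n := pow_le_pow_right₀ (by omega) hb
  have h1 : (4 * x) * p ^ b ≤ ((E + p) * (p + 1)) * p ^ n :=
    mul_le_mul h4x hpb' (by omega) (by nlinarith)
  have h3 : E * (p ^ n * (p ^ 2 + p + 1)) ≤ E * G p (n + 3) :=
    mul_le_mul_of_nonneg_left hG (by omega)
  have h4 : 0 < 4 * E * p ^ 2 + 3 * E * p + E - 4 - p ^ 2 - 3 * p := by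
    have : 1 * (4 * p ^ 2 + 3 * p + 1) ≤ E * (4 * p ^ 2 + 3 * p + 1) :=
      mul_le_mul_of_nonneg_right hEpos (by positivity)
    nlinarith
  have h5 : 1 * (4 + 2 * (E + p)) ≤ p ^ n * (4 + 2 * (E + p)) :=
    mul_le_mul_of_nonneg_right hR (by omega)
  have h6 : 0 < p ^ n * (4 * E * p ^ 2 + 3 * E * p + E - 4 - p ^ 2 - 3 * p) := by positivity
  nlinarith

theorem case42 (p T x y : ℤ) (n a : ℕ) (hp : 3 ≤ p) (hpo : Odd p) (hT : Even T)
    (hxa : x = 2 ^ a) (hy : 2 ≤ y) (hye : Even y) (hxQ : 2 * x ≤ y * T)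
    (h : (y * (T - p + 1) - p) * G p (n + 3) = 1 + y + x * p ^ (n + 1)) : False := by
  have hx : 1 ≤ x := by rw [hxa]; exact one_le_pow₀ (by norm_num)
  have hG := G_ge p (by omega) n
  have hR : 1 ≤ p ^ n := one_le_pow' p (by omega) n
  have hGpos : 0 < G p (n + 3) := by nlinarith
  obtain ⟨g, hg⟩ : ∃ g, g = T - p + 1 := ⟨_, rfl⟩
  rw [← hg] at h
  obtain ⟨E, hE⟩ : ∃ E, E = y * g - p := ⟨_, rfl⟩
  rw [← hE] at h
  have hEpos : 1 ≤ E := by
    by_contra hc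
    have h1 : E * G p (n + 3) ≤ 0 := mul_nonpos_of_nonpos_of_nonneg (by omega) hGpos.le
    have h2 : 0 < x * p ^ (n + 1) := by positivity
    omega
  obtain ⟨hg2, h2y, h4x⟩ := prep p T x y g E hp hpo hT hy hxQ hg hE hEpos
  have e1 : p ^ (n + 1) = p ^ n * p := pow_succ _ _
  have hEp : E < p := by
    by_contra hc
    have h1 : (4 * x) * (p ^ n * p) ≤ ((E + p) * (p + 1)) * (p ^ n * p) :=
      mul_le_mul_of_nonneg_right h4x (by positivity)
    have h3 : E * (p ^ n * (p ^ 2 + p + 1)) ≤ E * G p (n + 3) :=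
      mul_le_mul_of_nonneg_left hG (by omega)
    have h4 : (E + p) * ((p + 1) * (p ^ n * p)) ≤ (2 * E) * ((p + 1) * (p ^ n * p)) :=
      mul_le_mul_of_nonneg_right (by omega) (by positivity)
    rw [e1] at h
    have h5 : 4 + 4 * E < p ^ n * (2 * E * (p ^ 2 + p) + 4 * E) := by
      have h6 : 4 + 4 * E < 2 * E * (p ^ 2 + p) + 4 * E := by nlinarith
      have h7 : 1 * (2 * E * (p ^ 2 + p) + 4 * E) ≤ p ^ n * (2 * E * (p ^ 2 + p) + 4 * E) :=
        mul_le_mul_of_nonneg_right hR (by positivity)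
      omega
    nlinarith
  have hp0 : 0 < p := by omega
  rw [e1, G_succ' p (n + 2)] at h
  have hmod : p ∣ E - (1 + y) := by
    refine ⟨x * p ^ n - E * G p (n + 2), ?_⟩
    linear_combination h
  have hEy : E - (1 + y) = 0 := by
    rcases eq_or_ne y (p - 1) with hxp | hxp
    · exfalso
      have h8 : p ∣ E := by
        have : E = (E - (1 + y)) + p := by rw [hxp]; ring
        rw [this]; exact dvd_add hmod dvd_rfl
      have := small_dvd p E hp0 h8 (by omega) (by omega)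
      omega
    · exact small_dvd p _ hp0 hmod (by omega) (by omega)
  have hp0' : p ≠ 0 := by omega
  have h9 : E * G p (n + 2) = x * p ^ n := by
    apply mul_left_cancel₀ hp0'
    linear_combination h - hEy
  rcases Nat.eq_zero_or_pos n with hn | hn
  · subst hn
    have hG2 : G p (0 + 2) = 1 + p := by
      rw [G_succ' p (0 + 1), G_succ' p 0, G_zero]; ring
    rw [hG2, pow_zero, mul_one] at h9
    obtain ⟨u, hu⟩ := hye
    have hEo : Odd E := ⟨u, by omega⟩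
    have hdvd : E ∣ 2 ^ a := ⟨1 + p, by rw [← hxa]; exact h9.symm⟩
    have hcop : IsCoprime E ((2 : ℤ) ^ a) := by
      apply IsCoprime.pow_right
      obtain ⟨v, hv⟩ := hEo
      exact ⟨1, -v, by rw [hv]; ring⟩
    have hunit : IsUnit E := hcop.isUnit_of_dvd' dvd_rfl hdvd
    rcases Int.isUnit_iff.mp hunit with h1 | h1 <;> omega
  · obtain ⟨n', rfl⟩ : ∃ n', n = n' + 1 := ⟨n - 1, by omega⟩
    have e2 : p ^ (n' + 1) = p ^ n' * p := pow_succ _ _
    rw [G_succ' p (n' + 1 + 1), e2] at h9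
    have h11 : p ∣ E := ⟨x * p ^ n' - E * G p (n' + 1 + 1), by linear_combination h9⟩
    have := small_dvd p E hp0 h11 (by omega) (by omega)
    omega

/-- `1 + s P` against `p^2 + s`. -/
lemma aux_ge (p P s : ℤ) (hp : 3 ≤ p) (hP : p ^ 2 ≤ P) (hs : 1 ≤ s) : p ^ 2 + s ≤ 1 + s * P := by
  have h1 : s * p ^ 2 ≤ s * P := mul_le_mul_of_nonneg_left hP (by omega)
  have h2 : 0 ≤ (s - 1) * (p ^ 2 - 1) := mul_nonneg (by omega) (by nlinarith)
  nlinarith

lemma case43_lt (p P s y T x g : ℤ) (hp : 3 ≤ p) (hP : p ^ 2 ≤ P) (hs : 1 ≤ s)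
    (hx : 1 ≤ x) (h2x : 2 * x ≤ y) (hg : 2 ≤ g) (hT : T = g + p - 1)
    (h1 : y * T = 1 + s * P) (h2 : p * g * y = p ^ 2 + s + (p - 1) * x) : False := by
  have h3 : (p - 1) * (2 * x) ≤ (p - 1) * y := mul_le_mul_of_nonneg_left h2x (by omega)
  have h4 : (2 * p * g - p + 1) * y ≤ 2 * (p ^ 2 + s) := by linarith
  have h5 : 0 ≤ (g - 2) * (2 * p ^ 2 - p - 1) := mul_nonneg (by omega) (by nlinarith)
  have h6 : (3 * p + 1) * T ≤ (p + 1) * (2 * p * g - p + 1) := by rw [hT]; nlinarith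
  have h7 : (3 * p + 1) * T * y ≤ (p + 1) * (2 * p * g - p + 1) * y :=
    mul_le_mul_of_nonneg_right h6 (by omega)
  have h8 : (p + 1) * ((2 * p * g - p + 1) * y) ≤ (p + 1) * (2 * (p ^ 2 + s)) :=
    mul_le_mul_of_nonneg_left h4 (by omega)
  have h9 : (3 * p + 1) * (1 + s * P) ≤ 2 * (p + 1) * (p ^ 2 + s) := by
    rw [← h1]; linarith
  have h10 : s * p ^ 2 ≤ s * P := mul_le_mul_of_nonneg_left hP (by omega)
  have h11 : (3 * p + 1) * (1 + s * p ^ 2) ≤ (3 * p + 1) * (1 + s * P) :=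
    mul_le_mul_of_nonneg_left (by omega) (by omega)
  have h12 : 1 * (3 * p ^ 3 + p ^ 2 - 2 * p - 2) ≤ s * (3 * p ^ 3 + p ^ 2 - 2 * p - 2) := by
    apply mul_le_mul_of_nonneg_right hs
    nlinarith [pow_pos (by omega : 0 < p) 3]
  have h13 : 0 < p ^ 3 - p ^ 2 + p - 1 := by
    have : p ^ 3 - p ^ 2 + p - 1 = (p - 1) * (p ^ 2 + 1) := by ring
    rw [this]
    apply mul_pos (by omega) (by positivity)
  nlinarith

lemma case43_eq (p P s y T g : ℤ) (hp : 3 ≤ p) (hP : p ^ 2 ≤ P) (hs : 1 ≤ s)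
    (hg : 2 ≤ g) (hT : T = g + p - 1)
    (h1 : y * T = 1 + s * P) (h2 : p * g * y = p ^ 2 + s + (p - 1) * y) : False := by
  have h3 : y * (p * g - p + 1) = p ^ 2 + s := by linear_combination h2
  rcases eq_or_ne g 2 with hg2 | hg2
  · subst hg2
    have h4 : 1 + s * P = p ^ 2 + s := by rw [← h1, ← h3, hT]; ring
    have h10 : s * p ^ 2 ≤ s * P := mul_le_mul_of_nonneg_left hP (by omega)
    have hs1 : s = 1 := by
      by_contra hc
      have h5 : 1 * (p ^ 2 - 1) ≤ (s - 1) * (p ^ 2 - 1) :=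
        mul_le_mul_of_nonneg_right (by omega) (by nlinarith)
      nlinarith
    subst hs1
    have h6 : p + 1 ∣ 2 := ⟨y - (p - 1), by linear_combination -h3⟩
    have := small_dvd (p + 1) 2 (by omega) h6 (by omega) (by omega)
    omega
  · have hg3 : 3 ≤ g := by omega
    have h4 : (1 + s * P) * (p * g - p + 1) = (p ^ 2 + s) * (g + p - 1) := by
      rw [← h1, ← h3, hT]; ring
    have h10 : s * p ^ 2 ≤ s * P := mul_le_mul_of_nonneg_left hP (by omega)
    have h11 : (1 + s * p ^ 2) * (p * g - p + 1) ≤ (1 + s * P) * (p * g - p + 1) :=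
      mul_le_mul_of_nonneg_right (by omega) (by nlinarith)
    have hp3 : 0 < p ^ 3 - 1 := by
      have : p ^ 3 - 1 = (p - 1) * (p ^ 2 + p + 1) := by ring
      rw [this]; exact mul_pos (by omega) (by positivity)
    have h12 : 0 ≤ ((1 + s * p ^ 2) * p - (p ^ 2 + s)) * (g - 3) := by
      apply mul_nonneg _ (by omega)
      have h13 : 1 * (p ^ 3 - 1) ≤ s * (p ^ 3 - 1) := mul_le_mul_of_nonneg_right hs hp3.le
      nlinarith
    have h14 : 0 < (1 + s * p ^ 2) * (2 * p + 1) - (p ^ 2 + s) * (p + 2) := by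
      have h15 : 1 * (2 * p ^ 3 + p ^ 2 - p - 2) ≤ s * (2 * p ^ 3 + p ^ 2 - p - 2) := by
        apply mul_le_mul_of_nonneg_right hs
        nlinarith
      have h16 : 0 < (p - 1) * (p ^ 2 + 1) := mul_pos (by omega) (by positivity)
      nlinarith
    nlinarith

/-- the final case `m = 3`, `x = y w`, `T < 2 p`. -/
lemma final (p s y T w : ℤ) (c e j : ℕ) (hp : 3 ≤ p) (hpo : Odd p)
    (hy : y = 2 ^ c) (hw : w = 2 ^ e) (hT : T = 2 ^ j) (he : 1 ≤ e) (hej : e + 1 ≤ j)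
    (hs : 1 ≤ s) (hTp : T < 2 * p)
    (h1 : y * T = 1 + s * p ^ 2) (h2 : y * (p * (T - p + 1) - (p - 1) * w) = p ^ 2 + s) :
    False := by
  obtain ⟨r, hr⟩ : ∃ r, r = p * (T - p + 1) - (p - 1) * w := ⟨_, rfl⟩
  rw [← hr] at h2
  have hy1 : 1 ≤ y := by rw [hy]; exact one_le_pow₀ (by norm_num)
  have hT1 : 1 ≤ T := by rw [hT]; exact one_le_pow₀ (by norm_num)
  have hge := aux_ge p (p ^ 2) s hp le_rfl hs
  have hrT : r ≤ T := by
    by_contra hc
    have : y * T < y * r := by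
      apply mul_lt_mul_of_pos_left _ (by omega)
      omega
    omega
  have hr0 : 0 < r := by
    by_contra hc
    have h5 : y * r ≤ 0 := mul_nonpos_of_nonneg_of_nonpos (by omega) (by omega)
    nlinarith
  -- w is even, T is even
  obtain ⟨e', rfl⟩ : ∃ e', e = e' + 1 := ⟨e - 1, by omega⟩
  obtain ⟨f, rfl⟩ : ∃ f, j = e' + 1 + (f + 1) := ⟨j - e' - 2, by omega⟩
  obtain ⟨t, ht⟩ : ∃ t : ℤ, t = 2 ^ f := ⟨_, rfl⟩
  have ht1 : 1 ≤ t := by rw [ht]; exact one_le_pow₀ (by norm_num)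
  have hTw : T = w * (2 * t) := by rw [hT, hw, ht, pow_add, pow_succ (2:ℤ) f]; ring
  obtain ⟨w', hw'⟩ : ∃ w' : ℤ, w' = 2 ^ e' := ⟨_, rfl⟩
  have hww : w = 2 * w' := by rw [hw, hw', pow_succ]; ring
  have hw1 : 1 ≤ w' := by rw [hw']; exact one_le_pow₀ (by norm_num)
  obtain ⟨q, hq⟩ := hpo
  have hwT : T - p ≤ w := by
    by_contra hc
    have h6 : (p - 1) * w ≤ (p - 1) * (T - p - 1) :=
      mul_le_mul_of_nonneg_left (by omega) (by omega)
    nlinarith
  have hwg : w ≤ T - p + 1 := by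
    by_contra hc
    have h6 : (p - 1) * (T - p + 2) ≤ (p - 1) * w :=
      mul_le_mul_of_nonneg_left (by omega) (by omega)
    nlinarith
  have hTe : T = 2 * (w * t) := by rw [hTw]; ring
  have hwg' : w = T - p + 1 := by
    obtain ⟨v, hv⟩ : ∃ v, v = w * t := ⟨_, rfl⟩
    rw [← hv] at hTe
    omega
  have hpw : p = w * (2 * t - 1) + 1 := by rw [hTw] at hwg'; linarith
  have hrw : r = w := by rw [hr, ← hwg']; ring
  rw [hrw] at h2
  -- 2^a (p^2 - t') = p^4 - 1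
  have hmain : (y * w) * (p ^ 2 - 2 * t) = p ^ 4 - 1 := by
    have e1 : y * w * (2 * t) = 1 + s * p ^ 2 := by rw [← h1, hTw]; ring
    linear_combination p ^ 2 * h2 - e1
  have hodd1 : Odd (p ^ 2 - 2 * t) := by
    refine ⟨2 * q ^ 2 + 2 * q - t, ?_⟩
    rw [hq]; ring
  have hyw : y * w = 2 ^ (c + (e' + 1)) := by rw [hy, hw, ← pow_add]
  rcases Nat.eq_zero_or_pos e' with he0 | he0
  · subst he0
    have hw2 : w = 2 := by rw [hw]; norm_num
    have hp2 : p = 4 * t - 1 := by rw [hpw, hw2]; ring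
    -- y w (8t-1) = 16 t (8 t^2 - 4 t + 1)
    have h7 : (y * w) * (8 * t - 1) = (16 * t) * (8 * t ^ 2 - 4 * t + 1) := by
      have h8 : (2 * t - 1) ≠ 0 := by omega
      apply mul_left_cancel₀ h8
      rw [hp2] at hmain
      linear_combination hmain
    have h9 : (16 * t : ℤ) = 2 ^ (f + 4) := by rw [ht, pow_add]; ring
    rw [hyw, h9] at h7
    obtain ⟨-, h10⟩ := two_pow_odd _ _ _ _ ⟨4 * t - 1, by ring⟩
      ⟨4 * t ^ 2 - 2 * t, by ring⟩ h7
    -- 8t-1 = 8t^2-4t+1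
    have h11 : 8 * t * t - 12 * t + 2 = 0 := by linarith
    have h12 : t < 2 := by nlinarith
    have h13 : t = 1 := by omega
    rw [h13] at h11
    norm_num at h11
  · obtain ⟨e2, rfl⟩ : ∃ e2, e' = e2 + 1 := ⟨e' - 1, by omega⟩
    obtain ⟨w2, hw2⟩ : ∃ w2 : ℤ, w2 = 2 ^ e2 := ⟨_, rfl⟩
    have hww2 : w = 4 * w2 := by rw [hww, hw', hw2, pow_succ]; ring
    have hw21 : 1 ≤ w2 := by rw [hw2]; exact one_le_pow₀ (by norm_num)
    -- p^4 - 1 = 4 w * odd
    have h7 : p ^ 4 - 1 = (4 * w) * ((2 * t - 1) * (2 * w2 * (2 * t - 1) + 1) *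
        (8 * w2 ^ 2 * (2 * t - 1) ^ 2 + 4 * w2 * (2 * t - 1) + 1)) := by
      rw [hpw, hww2]; ring
    have h8 : (4 * w : ℤ) = 2 ^ (e2 + 1 + 1 + 2) := by rw [hw, pow_add (2:ℤ) (e2 + 1 + 1) 2]; ring
    have h9 : Odd ((2 * t - 1) * (2 * w2 * (2 * t - 1) + 1) *
        (8 * w2 ^ 2 * (2 * t - 1) ^ 2 + 4 * w2 * (2 * t - 1) + 1)) := by
      apply Odd.mul
      · apply Odd.mul
        · exact ⟨t - 1, by ring⟩
        · exact ⟨w2 * (2 * t - 1), by ring⟩
      · exact ⟨4 * w2 ^ 2 * (2 * t - 1) ^ 2 + 2 * w2 * (2 * t - 1), by ring⟩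
    rw [h7] at hmain
    have hmain' := hmain
    rw [hyw, h8] at hmain'
    obtain ⟨h10, -⟩ := two_pow_odd _ _ _ _ hodd1 h9 hmain'
    have h11 : y * w = 4 * w := by rw [hyw, h8, h10]
    rw [h11] at h2
    have h12 : w + 1 ≤ p := by rw [hpw]; nlinarith
    have h13 : (w + 1) ^ 2 ≤ p ^ 2 := by
      apply pow_le_pow_left₀ (by omega) h12
    nlinarith [sq_nonneg (w - 1)]

lemma case43_gt (p s y T w : ℤ) (n c e j : ℕ) (hp : 3 ≤ p) (hpo : Odd p)
    (hy : y = 2 ^ c) (hw : w = 2 ^ e) (hT : T = 2 ^ j) (hc : 1 ≤ c) (he : 1 ≤ e) (hej : e + 1 ≤ j)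
    (hs : 1 ≤ s)
    (h1 : y * T = 1 + s * p ^ (n + 2))
    (h2 : y * (p * (T - p + 1) - (p - 1) * w) = p ^ 2 + s) :
    False := by
  have hy1 : 1 ≤ y := by rw [hy]; exact one_le_pow₀ (by norm_num)
  have hT1 : 1 ≤ T := by rw [hT]; exact one_le_pow₀ (by norm_num)
  have hP : p ^ 2 ≤ p ^ (n + 2) := pow_le_pow_right₀ (by omega) (by omega)
  have hge := aux_ge p (p ^ (n + 2)) s hp hP hs
  obtain ⟨r, hr⟩ : ∃ r, r = p * (T - p + 1) - (p - 1) * w := ⟨_, rfl⟩
  have h2' := h2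
  rw [← hr] at h2
  have hr0 : 0 < r := by
    by_contra hc
    have h5 : y * r ≤ 0 := mul_nonpos_of_nonneg_of_nonpos (by omega) (by omega)
    nlinarith
  obtain ⟨e', rfl⟩ : ∃ e', e = e' + 1 := ⟨e - 1, by omega⟩
  obtain ⟨f, rfl⟩ : ∃ f, j = e' + 1 + (f + 1) := ⟨j - e' - 2, by omega⟩
  obtain ⟨t, ht⟩ : ∃ t : ℤ, t = 2 ^ f := ⟨_, rfl⟩
  have ht1 : 1 ≤ t := by rw [ht]; exact one_le_pow₀ (by norm_num)
  have hTw : T = w * (2 * t) := by rw [hT, hw, ht, pow_add, pow_succ (2:ℤ) f]; ring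
  obtain ⟨w', hw'⟩ : ∃ w' : ℤ, w' = 2 ^ e' := ⟨_, rfl⟩
  have hww : w = 2 * w' := by rw [hw, hw', pow_succ]; ring
  have hw1 : 1 ≤ w' := by rw [hw']; exact one_le_pow₀ (by norm_num)
  have hT4 : T = 4 * (w' * t) := by rw [hTw, hww]; ring
  have h2w : 2 * w ≤ T := by rw [hTw]; nlinarith
  obtain ⟨q, hq⟩ := hpo
  rcases lt_or_ge T (2 * p) with hTp | hTp
  · rcases Nat.eq_zero_or_pos n with hn | hn
    · subst hn
      exact final p s y T w c (e' + 1) (e' + 1 + (f + 1)) hp ⟨q, hq⟩ hy hw hT (by omega) hej hs hTp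
        (by simpa using h1) h2'
    · have hP3 : p ^ 3 ≤ p ^ (n + 2) := pow_le_pow_right₀ (by omega) (by omega)
      have hr2 : 2 ≤ r := by
        have : r = 2 * (p * (2 * (w' * t) - q) - (p - 1) * w') := by
          rw [hr, hT4, hww, hq]; ring
        omega
      have h3 : T * (p ^ 2 + s) = r * (1 + s * p ^ (n + 2)) := by rw [← h1, ← h2]; ring
      have h4 : s * p ^ 3 ≤ s * p ^ (n + 2) := mul_le_mul_of_nonneg_left hP3 (by omega)
      have h0 : 0 < s * p ^ 3 := by positivity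
      have h5 : 2 * (1 + s * p ^ 3) ≤ r * (1 + s * p ^ (n + 2)) :=
        mul_le_mul hr2 (by omega) (by omega) (by omega)
      have h6 : T * (p ^ 2 + s) ≤ (2 * p - 1) * (p ^ 2 + s) :=
        mul_le_mul_of_nonneg_right (by omega) (by positivity)
      have h7 : 1 * (2 * p ^ 3 - 2 * p + 1) ≤ s * (2 * p ^ 3 - 2 * p + 1) := by
        apply mul_le_mul_of_nonneg_right hs
        nlinarith
      nlinarith
  · have hTne : T ≠ 2 * p := by
      obtain ⟨v, hv⟩ : ∃ v, v = w' * t := ⟨_, rfl⟩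
      rw [← hv] at hT4
      omega
    have hy2 : 2 ≤ y := by
      rw [hy]
      calc (2 : ℤ) = 2 ^ 1 := by norm_num
        _ ≤ 2 ^ c := pow_le_pow_right₀ (by norm_num) hc
    have hrT : T < r := by
      have h3 : (p - 1) * (2 * w) ≤ (p - 1) * T := mul_le_mul_of_nonneg_left h2w (by omega)
      have h4 : 0 < (p - 1) * (T - 2 * p) := mul_pos (by omega) (by omega)
      nlinarith
    have h5 : y * (T + 1) ≤ y * r := mul_le_mul_of_nonneg_left (by omega) (by omega)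
    nlinarith

theorem case43 (p T x y : ℤ) (n a c j : ℕ) (hp : 3 ≤ p) (hpo : Odd p)
    (hx : x = 2 ^ a) (hy : y = 2 ^ c) (hT : T = 2 ^ j) (hc : 1 ≤ c) (hj : 1 ≤ j)
    (hac : a + 1 ≤ c + j)
    (h : (y * (T - p + 1) - p) * G p (n + 3) = 1 + y + x * p ^ (n + 2)) : False := by
  have hx1 : 1 ≤ x := by rw [hx]; exact one_le_pow₀ (by norm_num)
  have hy1 : 1 ≤ y := by rw [hy]; exact one_le_pow₀ (by norm_num)
  have hT1 : 1 ≤ T := by rw [hT]; exact one_le_pow₀ (by norm_num)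
  have hy2 : 2 ≤ y := by
    rw [hy]
    calc (2 : ℤ) = 2 ^ 1 := by norm_num
      _ ≤ 2 ^ c := pow_le_pow_right₀ (by norm_num) hc
  have hTe : Even T := by
    rw [hT]
    obtain ⟨j', rfl⟩ : ∃ j', j = j' + 1 := ⟨j - 1, by omega⟩
    exact ⟨2 ^ j', by rw [pow_succ]; ring⟩
  have hxQ : 2 * x ≤ y * T := by
    rw [hx, hy, hT, ← pow_add]
    calc 2 * (2 : ℤ) ^ a = 2 ^ (a + 1) := by rw [pow_succ]; ring
      _ ≤ 2 ^ (c + j) := pow_le_pow_right₀ (by norm_num) hac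
  have hG := G_ge p (by omega) n
  have hR : 1 ≤ p ^ n := one_le_pow' p (by omega) n
  have hGpos : 0 < G p (n + 3) := by nlinarith
  have hEpos : 1 ≤ y * (T - p + 1) - p := by
    by_contra hc
    have h1 : (y * (T - p + 1) - p) * G p (n + 3) ≤ 0 :=
      mul_nonpos_of_nonpos_of_nonneg (by omega) hGpos.le
    have h2 : 0 < x * p ^ (n + 2) := by positivity
    omega
  obtain ⟨hg2, h2y, h4x⟩ := prep p T x y (T - p + 1) (y * (T - p + 1) - p) hp hpo hTe hy2 hxQ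
    rfl rfl hEpos
  have hm3 := G_mul p (n + 3)
  have e3 : p ^ (n + 3) = p ^ (n + 2) * p := pow_succ _ _
  rw [e3] at hm3
  have hP : p ^ 2 ≤ p ^ (n + 2) := pow_le_pow_right₀ (by omega) (by omega)
  have hP0 : (0 : ℤ) < p ^ (n + 2) := by positivity
  obtain ⟨s, hs⟩ : ∃ s, s = p * (y * (T - p + 1) - p) - (p - 1) * x := ⟨_, rfl⟩
  have h1 : y * T = 1 + s * p ^ (n + 2) := by
    rw [hs]
    linear_combination (y * (T - p + 1) - p) * hm3 - (p - 1) * h
  have hs1 : 1 ≤ s := by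
    by_contra hcc
    have h3 : s * p ^ (n + 2) ≤ 0 := mul_nonpos_of_nonpos_of_nonneg (by omega) hP0.le
    have h4 : 2 * T ≤ y * T := mul_le_mul_of_nonneg_right hy2 (by omega)
    omega
  have h2 : p * (T - p + 1) * y = p ^ 2 + s + (p - 1) * x := by rw [hs]; ring
  rcases lt_trichotomy a c with hlt | heq | hgt
  · have h2x : 2 * x ≤ y := by
      rw [hx, hy]
      calc 2 * (2 : ℤ) ^ a = 2 ^ (a + 1) := by rw [pow_succ]; ring
        _ ≤ 2 ^ c := pow_le_pow_right₀ (by norm_num) hlt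
    exact case43_lt p (p ^ (n + 2)) s y T x (T - p + 1) hp hP hs1 hx1 h2x hg2 (by ring) h1 h2
  · have hxy : x = y := by rw [hx, hy, heq]
    rw [hxy] at h2
    exact case43_eq p (p ^ (n + 2)) s y T (T - p + 1) hp hP hs1 hg2 (by ring) h1 h2
  · obtain ⟨e, rfl⟩ := Nat.exists_eq_add_of_lt hgt
    have hxw : x = y * 2 ^ (e + 1) := by rw [hx, hy, ← pow_add]; rfl
    apply case43_gt p s y T (2 ^ (e + 1)) n c (e + 1) j hp hpo hy rfl hT hc (by omega)
      (by omega) hs1 h1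
    rw [hxw] at h2
    linear_combination h2

end Pool.Agent.N621.NP
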